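import Mathlib

set_option autoImplicit false

/-!
# MP_9610b2_co: a rich flow admissible graph of maximum degree 5 without a rich 8-flow

Finite loopless multigraphs are given by a vertex type `V`, an edge type `E` and the two ends
`s e`, `t e` of every edge `e`; parallel edges are allowed.

Let `T` be the triangle `a b c` with all edges doubled, with one further edge at `a` and one at `b`.
In a rich 8-flow the six edges of the triangle and the edge at `a` have different absolute values in
`{1,...,7}`, and the edge at `b` has the same absolute value as the edge at `a`. An inspection of all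
cases shows that this absolute value is not `5`. Now take three vertices joined by `3`, `2` and `2`
parallel edges and replace each of these seven edges by a copy of `T`. Any two of the seven edges have
a common end, so in a rich 8-flow they have seven different absolute values in `{1,2,3,4,6,7}`, which
is impossible.
-/

open Finset

namespace Pool.Agent.Results.MP_9610b2_co.DegreeFive

/-- The tail of the edge `e` in the orientation `D` (reference orientation `s e → t e`; `D e = false`
means that the edge is reversed). -/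
def tail {V E : Type} (s t : E → V) (D : E → Bool) (e : E) : V := if D e then s e else t e

/-- The head of the edge `e` in the orientation `D`. -/
def head {V E : Type} (s t : E → V) (D : E → Bool) (e : E) : V := if D e then t e else s e

/-- `φ` is an integer flow with respect to the orientation `D`. -/
def IsFlow {V E : Type} [DecidableEq V] [Fintype E] (s t : E → V) (D : E → Bool) (φ : E → ℤ) :
    Prop :=
  ∀ v, ∑ e ∈ univ.filter (fun e => tail s t D e = v), φ e =
    ∑ e ∈ univ.filter (fun e => head s t D e = v), φ e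

/-- The edges `e` and `e'` have a common end. -/
def Meet {V E : Type} (s t : E → V) (e e' : E) : Prop :=
  s e = s e' ∨ s e = t e' ∨ t e = s e' ∨ t e = t e'

/-- The graph has a rich `k`-flow: a nowhere-zero `k`-flow such that distinct edges with a common end
have different absolute values. -/
def HasRichFlow {V E : Type} [DecidableEq V] [Fintype E] (s t : E → V) (k : ℕ) : Prop :=
  ∃ (D : E → Bool) (φ : E → ℤ), IsFlow s t D φ ∧ (∀ e, φ e ≠ 0 ∧ |φ e| < k) ∧
    ∀ e e', e ≠ e' → Meet s t e e' → |φ e| ≠ |φ e'|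

/-- The degree of a vertex, parallel edges counted with multiplicity (the graphs are loopless). -/
def degree {V E : Type} [DecidableEq V] [Fintype E] (s t : E → V) (v : V) : ℕ :=
  (univ.filter (fun e => s e = v ∨ t e = v)).card

/-- The maximum degree. -/
def maxDegree {V E : Type} [Fintype V] [DecidableEq V] [Fintype E] (s t : E → V) : ℕ :=
  univ.sup (degree s t)

/-- Adjacency by the edges outside `S`. -/
def del {V E : Type} (s t : E → V) (S : Set E) : SimpleGraph V where
  Adj x y := x ≠ y ∧ ∃ e, e ∉ S ∧ ((s e = x ∧ t e = y) ∨ (s e = y ∧ t e = x))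
  symm := ⟨fun _ _ h => ⟨h.1.symm, h.2.imp fun _ he => ⟨he.1, he.2.symm⟩⟩⟩
  loopless := ⟨fun _ h => h.1 rfl⟩

/-- The number of connected components after the deletion of the edges in `S`. -/
noncomputable def comps {V E : Type} (s t : E → V) (S : Set E) : ℕ :=
  Nat.card (del s t S).ConnectedComponent

/-- Rich flow admissible: the deletion of one edge does not increase the number of components
(no bridges), and neither does the deletion of two distinct edges with a common end. -/
def Admissible {V E : Type} (s t : E → V) : Prop :=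
  (∀ e, comps s t {e} ≤ comps s t ∅) ∧
    ∀ e e', e ≠ e' → Meet s t e e' → comps s t {e, e'} ≤ comps s t ∅

/-! ### The graph -/

/-- vertices: three branch vertices and the vertices `a, b, c` of the seven copies of `T` -/
abbrev V := Fin 3 ⊕ (Fin 7 × Fin 3)

/-- edges: eight for each copy of `T` -/
abbrev E := Fin 7 × Fin 8

/-- the branch vertex at `a` -/
def X : Fin 7 → Fin 3 := ![0, 0, 0, 1, 1, 2, 2]

/-- the branch vertex at `b` -/
def Y : Fin 7 → Fin 3 := ![1, 1, 1, 2, 2, 0, 0]

/-- first ends -/
def gs : E → V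
  | (i, 0) => Sum.inl (X i)
  | (i, 1) => Sum.inr (i, 1)
  | (i, 2) => Sum.inr (i, 0)
  | (i, 3) => Sum.inr (i, 0)
  | (i, 4) => Sum.inr (i, 0)
  | (i, 5) => Sum.inr (i, 0)
  | (i, 6) => Sum.inr (i, 2)
  | (i, 7) => Sum.inr (i, 2)

/-- second ends -/
def gt : E → V
  | (i, 0) => Sum.inr (i, 0)
  | (i, 1) => Sum.inl (Y i)
  | (i, 2) => Sum.inr (i, 1)
  | (i, 3) => Sum.inr (i, 1)
  | (i, 4) => Sum.inr (i, 2)
  | (i, 5) => Sum.inr (i, 2)
  | (i, 6) => Sum.inr (i, 1)
  | (i, 7) => Sum.inr (i, 1)

/-! ### The inspection of `T` -/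

/-- the possible values -/
def L : List ℤ := [1, 2, 3, 4, 6, 7, -1, -2, -3, -4, -6, -7]

/-- the absolute values differ -/
def nd (x y : ℤ) : Bool := decide (x ≠ y) && decide (x ≠ -y)

/-- there are no values `q, q' ; r, r' ; p, p'` with `q + q' = r + r'` and `p + p' = 5 - (q + q')` -/
lemma T_all : ∀ q ∈ L, ∀ q' ∈ L, nd q q' = true → ∀ r ∈ L,
    (nd r q && (nd r q' && (decide (q + q' - r ∈ L) && (nd (q + q' - r) q &&
      (nd (q + q' - r) q' && nd (q + q' - r) r))))) = true →
    ∀ p ∈ L, (nd p q && (nd p q' && (nd p r && (nd p (q + q' - r) &&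
      (decide (5 - (q + q') - p ∈ L) && (nd (5 - (q + q') - p) q && (nd (5 - (q + q') - p) q' &&
      (nd (5 - (q + q') - p) r && (nd (5 - (q + q') - p) (q + q' - r) &&
      nd (5 - (q + q') - p) p))))))))) = false := by
  decide +kernel

lemma mem_L {v : ℤ} (h0 : v ≠ 0) (h : |v| < 8) (h5 : |v| ≠ 5) : v ∈ L := by
  obtain ⟨h1, h2⟩ := abs_lt.1 h
  have hv : v ∈ Finset.Icc (-7 : ℤ) 7 := Finset.mem_Icc.2 ⟨by linarith, by linarith⟩
  clear h1 h2 h
  have key : ∀ v ∈ Finset.Icc (-7 : ℤ) 7, v ≠ 0 → |v| ≠ 5 → v ∈ L := by decide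
  exact key v hv h0 h5

lemma nd_of {x y : ℤ} (h : |x| ≠ |y|) : nd x y = true := by
  unfold nd
  rw [Bool.and_eq_true, decide_eq_true_iff, decide_eq_true_iff]
  refine ⟨?_, ?_⟩
  · rintro rfl
    exact h rfl
  · rintro rfl
    exact h (abs_neg y)

/-- the case of the value `5` -/
lemma T_five {q q' r r' p p' : ℤ} (hq : q ∈ L) (hq' : q' ∈ L) (hr : r ∈ L) (hr' : r' ∈ L)
    (hp : p ∈ L) (hp' : p' ∈ L) (h1 : q + q' = r + r') (h2 : p + p' + (q + q') = 5)
    (a1 : |q| ≠ |q'|) (a2 : |r| ≠ |q|) (a3 : |r| ≠ |q'|) (a4 : |r'| ≠ |q|) (a5 : |r'| ≠ |q'|)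
    (a6 : |r'| ≠ |r|) (a7 : |p| ≠ |q|) (a8 : |p| ≠ |q'|) (a9 : |p| ≠ |r|) (a10 : |p| ≠ |r'|)
    (a11 : |p'| ≠ |q|) (a12 : |p'| ≠ |q'|) (a13 : |p'| ≠ |r|) (a14 : |p'| ≠ |r'|)
    (a15 : |p'| ≠ |p|) : False := by
  have e1 : r' = q + q' - r := by linarith
  have e2 : p' = 5 - (q + q') - p := by linarith
  subst e1
  subst e2
  have h := T_all q hq q' hq' (nd_of a1) r hr (by
    rw [nd_of a2, nd_of a3, nd_of a4, nd_of a5, nd_of a6, decide_eq_true hr']; rfl) p hp
  rw [nd_of a7, nd_of a8, nd_of a9, nd_of a10, nd_of a11, nd_of a12, nd_of a13, nd_of a14,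
    nd_of a15, decide_eq_true hp'] at h
  exact absurd h (by decide)

/-! ### No rich 8-flow -/

lemma filt_s (i : Fin 7) : univ.filter (fun e : E => gs e = Sum.inr (i, 0)) =
    {(i, 2), (i, 3), (i, 4), (i, 5)} := by
  revert i; decide

lemma filt_t (i : Fin 7) : univ.filter (fun e : E => gt e = Sum.inr (i, 0)) = {(i, 0)} := by
  revert i; decide

lemma filt_s1 (i : Fin 7) : univ.filter (fun e : E => gs e = Sum.inr (i, 1)) = {(i, 1)} := by
  revert i; decide

lemma filt_t1 (i : Fin 7) : univ.filter (fun e : E => gt e = Sum.inr (i, 1)) =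
    {(i, 2), (i, 3), (i, 6), (i, 7)} := by
  revert i; decide

lemma filt_s2 (i : Fin 7) : univ.filter (fun e : E => gs e = Sum.inr (i, 2)) =
    {(i, 6), (i, 7)} := by
  revert i; decide

lemma filt_t2 (i : Fin 7) : univ.filter (fun e : E => gt e = Sum.inr (i, 2)) =
    {(i, 4), (i, 5)} := by
  revert i; decide

lemma meet_T : ∀ (i : Fin 7) (j k : Fin 8), 2 ≤ j → 2 ≤ k → j ≠ k →
    Meet gs gt (i, j) (i, k) := by
  unfold Meet
  decide

lemma meet_0 : ∀ (i : Fin 7) (j : Fin 8), 2 ≤ j → j < 6 → Meet gs gt (i, 0) (i, j) := by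
  unfold Meet
  decide

lemma meet_1 : ∀ (i : Fin 7) (j : Fin 8), 6 ≤ j → Meet gs gt (i, 1) (i, j) := by
  unfold Meet
  decide

lemma meet_br : ∀ i j : Fin 7, i ≠ j → Meet gs gt (i, 0) (j, 0) ∨ Meet gs gt (i, 0) (j, 1) ∨
    Meet gs gt (i, 1) (j, 0) ∨ Meet gs gt (i, 1) (j, 1) := by
  unfold Meet
  decide

/-- Changing the orientation and the signs. -/
lemma reorient {V E : Type} [DecidableEq V] [Fintype E] (s t : E → V) (D : E → Bool)
    (f : E → ℤ) (h : IsFlow s t D f) (v : V) :
    ∑ e ∈ univ.filter (fun e => s e = v), (if D e then f e else -f e) =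
      ∑ e ∈ univ.filter (fun e => t e = v), (if D e then f e else -f e) := by
  have h1 := h v
  rw [Finset.sum_filter, Finset.sum_filter, ← sub_eq_zero, ← Finset.sum_sub_distrib] at h1 ⊢
  refine Eq.trans (Finset.sum_congr rfl fun e _ => ?_) h1
  unfold tail head
  cases D e
  · simp only [Bool.false_eq_true, if_false]
    by_cases ha : s e = v <;> by_cases hb : t e = v <;> simp [ha, hb]
  · simp only [if_true]

lemma no_rich : ¬ HasRichFlow gs gt 8 := by
  rintro ⟨D, f, hf, hb, hr⟩
  -- pass to the reference orientation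
  obtain ⟨φ, hφ⟩ : ∃ φ : E → ℤ, φ = fun e => if D e then f e else -f e := ⟨_, rfl⟩
  have habs : ∀ e, |φ e| = |f e| := by
    intro e
    rw [hφ]
    by_cases h : D e
    · simp [h]
    · simp [h]
  have hflow : ∀ v, ∑ e ∈ univ.filter (fun e => gs e = v), φ e =
      ∑ e ∈ univ.filter (fun e => gt e = v), φ e := by
    intro v
    rw [hφ]
    exact reorient gs gt D f hf v
  have h0 : ∀ e, φ e ≠ 0 := by
    intro e h
    have h1 := habs e
    rw [h, abs_zero] at h1
    exact (hb e).1 (abs_eq_zero.1 h1.symm)
  have h8 : ∀ e, |φ e| < 8 := by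
    intro e
    rw [habs]
    exact_mod_cast (hb e).2
  have hd : ∀ e e', e ≠ e' → Meet gs gt e e' → |φ e| ≠ |φ e'| := by
    intro e e' h1 h2
    rw [habs, habs]
    exact hr e e' h1 h2
  clear hr hb hf habs hφ
  -- conservation at the vertices of the copies of `T`
  have ka : ∀ i, φ (i, 2) + (φ (i, 3) + (φ (i, 4) + φ (i, 5))) = φ (i, 0) := by
    intro i
    have := hflow (Sum.inr (i, 0))
    rw [filt_s, filt_t, sum_singleton, sum_insert (by simp), sum_insert (by simp),
      sum_pair (by simp)] at this
    exact this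
  have kb : ∀ i, φ (i, 1) = φ (i, 2) + (φ (i, 3) + (φ (i, 6) + φ (i, 7))) := by
    intro i
    have := hflow (Sum.inr (i, 1))
    rw [filt_s1, filt_t1, sum_singleton, sum_insert (by simp), sum_insert (by simp),
      sum_pair (by simp)] at this
    exact this
  have kc : ∀ i, φ (i, 6) + φ (i, 7) = φ (i, 4) + φ (i, 5) := by
    intro i
    have := hflow (Sum.inr (i, 2))
    rw [filt_s2, filt_t2, sum_pair (by simp), sum_pair (by simp)] at this
    exact this
  have kxy : ∀ i, φ (i, 1) = φ (i, 0) := by
    intro i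
    have h1 := ka i
    have h2 := kb i
    have h3 := kc i
    linarith
  -- the value `5` is impossible at the entrance
  have h5 : ∀ i, |φ (i, 0)| ≠ 5 := by
    intro i hi
    have hT : ∀ j k : Fin 8, 2 ≤ j → 2 ≤ k → j ≠ k → |φ (i, j)| ≠ |φ (i, k)| := by
      intro j k hj hk hjk
      exact hd _ _ (by simpa using hjk) (meet_T i j k hj hk hjk)
    have hne : ∀ j : Fin 8, 2 ≤ j → |φ (i, j)| ≠ 5 := by
      intro j hj h
      by_cases hj6 : j < 6
      · refine hd (i, 0) (i, j) ?_ (meet_0 i j hj hj6) (hi.trans h.symm)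
        intro hh
        have : (0 : Fin 8) = j := congrArg Prod.snd hh
        subst this
        exact absurd hj (by decide)
      · refine hd (i, 1) (i, j) ?_ (meet_1 i j (not_lt.1 hj6)) ?_
        · intro hh
          have : (1 : Fin 8) = j := congrArg Prod.snd hh
          subst this
          exact absurd hj (by decide)
        · rw [kxy, hi, h]
    have hL : ∀ j : Fin 8, 2 ≤ j → φ (i, j) ∈ L := fun j hj => mem_L (h0 _) (h8 _) (hne j hj)
    have hLn : ∀ j : Fin 8, 2 ≤ j → -φ (i, j) ∈ L := fun j hj =>
      mem_L (neg_ne_zero.2 (h0 _)) (by rw [abs_neg]; exact h8 _) (by rw [abs_neg]; exact hne j hj)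
    have k1 := ka i
    have k3 := kc i
    rcases (abs_eq (by norm_num : (0 : ℤ) ≤ 5)).1 hi with h | h
    · refine T_five (hL 4 (by decide)) (hL 5 (by decide)) (hL 6 (by decide)) (hL 7 (by decide))
        (hL 2 (by decide)) (hL 3 (by decide)) k3.symm (by linarith)
        (hT 4 5 (by decide) (by decide) (by decide)) (hT 6 4 (by decide) (by decide) (by decide))
        (hT 6 5 (by decide) (by decide) (by decide)) (hT 7 4 (by decide) (by decide) (by decide))
        (hT 7 5 (by decide) (by decide) (by decide)) (hT 7 6 (by decide) (by decide) (by decide))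
        (hT 2 4 (by decide) (by decide) (by decide)) (hT 2 5 (by decide) (by decide) (by decide))
        (hT 2 6 (by decide) (by decide) (by decide)) (hT 2 7 (by decide) (by decide) (by decide))
        (hT 3 4 (by decide) (by decide) (by decide)) (hT 3 5 (by decide) (by decide) (by decide))
        (hT 3 6 (by decide) (by decide) (by decide)) (hT 3 7 (by decide) (by decide) (by decide))
        (hT 3 2 (by decide) (by decide) (by decide))
    · have hTn : ∀ j k : Fin 8, 2 ≤ j → 2 ≤ k → j ≠ k → |-φ (i, j)| ≠ |-φ (i, k)| := by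
        intro j k hj hk hjk
        rw [abs_neg, abs_neg]
        exact hT j k hj hk hjk
      refine T_five (hLn 4 (by decide)) (hLn 5 (by decide)) (hLn 6 (by decide))
        (hLn 7 (by decide)) (hLn 2 (by decide)) (hLn 3 (by decide)) (by linarith) (by linarith)
        (hTn 4 5 (by decide) (by decide) (by decide)) (hTn 6 4 (by decide) (by decide) (by decide))
        (hTn 6 5 (by decide) (by decide) (by decide)) (hTn 7 4 (by decide) (by decide) (by decide))
        (hTn 7 5 (by decide) (by decide) (by decide)) (hTn 7 6 (by decide) (by decide) (by decide))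
        (hTn 2 4 (by decide) (by decide) (by decide)) (hTn 2 5 (by decide) (by decide) (by decide))
        (hTn 2 6 (by decide) (by decide) (by decide)) (hTn 2 7 (by decide) (by decide) (by decide))
        (hTn 3 4 (by decide) (by decide) (by decide)) (hTn 3 5 (by decide) (by decide) (by decide))
        (hTn 3 6 (by decide) (by decide) (by decide)) (hTn 3 7 (by decide) (by decide) (by decide))
        (hTn 3 2 (by decide) (by decide) (by decide))
  -- seven different absolute values in a set of size six
  have hinj : Function.Injective (fun i : Fin 7 => |φ (i, 0)|) := by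
    intro i j hij
    by_contra hne
    have hij' : |φ (i, 0)| = |φ (j, 0)| := hij
    rcases meet_br i j hne with h | h | h | h
    · exact hd _ _ (by simpa using hne) h hij'
    · exact hd _ _ (by simp) h (by rw [kxy]; exact hij')
    · exact hd _ _ (by simp) h (by rw [kxy]; exact hij')
    · exact hd _ _ (by simpa using hne) h (by rw [kxy, kxy]; exact hij')
  have hsub : (univ.image (fun i : Fin 7 => |φ (i, 0)|)) ⊆ ({1, 2, 3, 4, 6, 7} : Finset ℤ) := by
    intro x hx
    obtain ⟨i, _, rfl⟩ := Finset.mem_image.1 hx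
    have a1 := abs_pos.2 (h0 (i, 0))
    have a2 := h8 (i, 0)
    have a3 := h5 i
    simp only [Finset.mem_insert, Finset.mem_singleton]
    omega
  have hcard := Finset.card_le_card hsub
  rw [Finset.card_image_of_injective _ hinj] at hcard
  revert hcard
  decide

/-! ### The graph is rich flow admissible -/

/-- numbers of the vertices -/
def enc : V → ℕ
  | Sum.inl k => k.val
  | Sum.inr (i, j) => 3 + 3 * i.val + j.val

/-- the edges in a list -/
def edges : List E := (List.finRange 7).flatMap fun i => (List.finRange 8).map fun j => (i, j)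

/-- add the ends of the edge `e` to the set coded by `m`, if `e` has an end in this set -/
def step (e₁ e₂ : E) (m : ℕ) (e : E) : ℕ :=
  if e = e₁ ∨ e = e₂ then m else
    if (m.testBit (enc (gs e)) || m.testBit (enc (gt e))) = true then
      (m ||| 2 ^ enc (gs e)) ||| 2 ^ enc (gt e) else m

/-- the set reached from the first vertex without the edges `e₁`, `e₂` -/
def reach (e₁ e₂ : E) : ℕ → ℕ
  | 0 => 1
  | n + 1 => edges.foldl (step e₁ e₂) (reach e₁ e₂ n)

lemma enc_inj : Function.Injective enc := by decide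

lemma reach_ok : ∀ e₁ e₂ : E, (e₁ = e₂ ∨ Meet gs gt e₁ e₂) → reach e₁ e₂ 4 = 2 ^ 24 - 1 := by
  unfold Meet
  decide +kernel

/-- all vertices of the coded set can be reached -/
def Good (e₁ e₂ : E) (m : ℕ) : Prop :=
  ∀ v, m.testBit (enc v) = true → (del gs gt {e₁, e₂}).Reachable (Sum.inl 0) v

lemma testBit_two_pow' (i j : ℕ) : (2 ^ i).testBit j = decide (i = j) := by
  rw [Nat.testBit_two_pow]

lemma step_good (e₁ e₂ : E) (m : ℕ) (e : E) (h : Good e₁ e₂ m) : Good e₁ e₂ (step e₁ e₂ m e) := by
  unfold step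
  split_ifs with h1 h2
  · exact h
  · -- both ends of `e` can be reached
    have hadj : gs e = gt e ∨ (del gs gt {e₁, e₂}).Adj (gs e) (gt e) := by
      by_cases hst : gs e = gt e
      · exact Or.inl hst
      · refine Or.inr ⟨hst, e, ?_, Or.inl ⟨rfl, rfl⟩⟩
        simpa using h1
    have hr : (del gs gt {e₁, e₂}).Reachable (gs e) (gt e) := by
      rcases hadj with h | h
      · rw [h]
      · exact h.reachable
    have hboth : (del gs gt {e₁, e₂}).Reachable (Sum.inl 0) (gs e) ∧
        (del gs gt {e₁, e₂}).Reachable (Sum.inl 0) (gt e) := by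
      rw [Bool.or_eq_true] at h2
      rcases h2 with h2 | h2
      · exact ⟨h _ h2, (h _ h2).trans hr⟩
      · exact ⟨(h _ h2).trans hr.symm, h _ h2⟩
    intro v hv
    rw [Nat.testBit_or, Nat.testBit_or, testBit_two_pow', testBit_two_pow', Bool.or_eq_true,
      Bool.or_eq_true, decide_eq_true_iff, decide_eq_true_iff] at hv
    rcases hv with (hv | hv) | hv
    · exact h v hv
    · rw [← enc_inj hv]; exact hboth.1
    · rw [← enc_inj hv]; exact hboth.2
  · exact h

lemma foldl_good (e₁ e₂ : E) (l : List E) : ∀ m, Good e₁ e₂ m →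
    Good e₁ e₂ (l.foldl (step e₁ e₂) m) := by
  induction l with
  | nil => intro m h; exact h
  | cons e l ih => intro m h; exact ih _ (step_good e₁ e₂ m e h)

lemma reach_good (e₁ e₂ : E) (n : ℕ) : Good e₁ e₂ (reach e₁ e₂ n) := by
  induction n with
  | zero =>
    intro v hv
    have : enc v = 0 := by
      have h1 : (2 ^ 0 : ℕ).testBit (enc v) = true := hv
      rw [testBit_two_pow', decide_eq_true_iff] at h1
      exact h1.symm
    have h2 : v = Sum.inl 0 := enc_inj this
    rw [h2]
  | succ n ih => exact foldl_good e₁ e₂ edges _ ih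

lemma enc_lt : ∀ v, enc v < 24 := by decide

lemma preconnected (e₁ e₂ : E) (h : e₁ = e₂ ∨ Meet gs gt e₁ e₂) :
    (del gs gt {e₁, e₂}).Preconnected := by
  have h1 : ∀ v, (del gs gt {e₁, e₂}).Reachable (Sum.inl 0) v := by
    intro v
    apply reach_good e₁ e₂ 4
    rw [reach_ok e₁ e₂ h, Nat.testBit_two_pow_sub_one]
    exact decide_eq_true (enc_lt v)
  intro u v
  exact (h1 u).symm.trans (h1 v)

lemma comps_le (e₁ e₂ : E) (h : e₁ = e₂ ∨ Meet gs gt e₁ e₂) : comps gs gt {e₁, e₂} ≤ 1 := by
  unfold comps
  have : Subsingleton (del gs gt {e₁, e₂}).ConnectedComponent :=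
    (preconnected e₁ e₂ h).subsingleton_connectedComponent
  exact Finite.card_le_one_iff_subsingleton.2 this

lemma one_le_comps : 1 ≤ comps gs gt ∅ := by
  unfold comps
  have : Nonempty (del gs gt ∅).ConnectedComponent :=
    ⟨(del gs gt ∅).connectedComponentMk (Sum.inl 0)⟩
  exact Nat.succ_le_of_lt Nat.card_pos

lemma admissible : Admissible gs gt := by
  refine ⟨fun e => ?_, fun e e' _ h => ?_⟩
  · have := comps_le e e (Or.inl rfl)
    rw [Set.pair_eq_singleton] at this
    exact this.trans one_le_comps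
  · exact (comps_le e e' (Or.inr h)).trans one_le_comps

lemma loopless : ∀ e, gs e ≠ gt e := by decide

lemma maxDeg : maxDegree gs gt = 5 := by decide +kernel

/-- Some rich flow admissible graph with maximum degree `Δ ≥ 5` (in fact `Δ = 5`) has no rich
`⌊1.5 Δ + 1⌋`-flow. -/
theorem result : ∃ (V E : Type) (_ : Fintype V) (_ : DecidableEq V) (_ : Fintype E) (s t : E → V),
    (∀ e, s e ≠ t e) ∧ Admissible s t ∧ 5 ≤ maxDegree s t ∧
      ¬ HasRichFlow s t ⌊(3 / 2 : ℚ) * (maxDegree s t : ℚ) + 1⌋₊ := by
  refine ⟨V, E, inferInstance, inferInstance, inferInstance, gs, gt, loopless, admissible, ?_, ?_⟩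
  · rw [maxDeg]
  · rw [maxDeg]
    have : ⌊(3 / 2 : ℚ) * ((5 : ℕ) : ℚ) + 1⌋₊ = 8 := by
      rw [Nat.floor_eq_iff (by norm_num)]
      norm_num
    rw [this]
    exact no_rich

end Pool.Agent.Results.MP_9610b2_co.DegreeFive
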